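import Mathlib
import Pool.Agent.Helper48_LPY.Stmts

set_option autoImplicit false

namespace Pool.Agent.LPY.H14

open Pool.Agent.LAX

lemma ncard_bU {α β : Type} [Finite α] [Finite β] (S : Set α) (F : α → Set β) (a b : ℕ)
    (hS : S.ncard ≤ a) (hF : ∀ i ∈ S, (F i).ncard ≤ b) :
    {y | ∃ i ∈ S, y ∈ F i}.ncard ≤ a * b := by
  classical
  have := Fintype.ofFinite α
  have := Fintype.ofFinite β
  have h1 : {y | ∃ i ∈ S, y ∈ F i} = ((S.toFinset.biUnion fun i => (F i).toFinset : Finset β) : Set β) := by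
    ext y
    simp
  rw [h1, Set.ncard_coe_finset]
  have h2 := Finset.card_biUnion_le_card_mul S.toFinset (fun i => (F i).toFinset) b
    (fun i hi => by
      have h3 := hF i (by simpa using hi)
      rwa [Set.ncard_eq_toFinset_card'] at h3)
  refine h2.trans (Nat.mul_le_mul_right b ?_)
  rwa [Set.ncard_eq_toFinset_card'] at hS

theorem rho : RhoStmt := by
  intro V _ Q k hk h
  have hco : ∀ x, {x' | ∃ y, (x', y) ∈ Q ∧ (x, y) ∈ Q}.ncard ≤ k * k := by
    intro x
    have h1 := ncard_bU (out Q x) (fun y => inn Q y) k k (h x).1 (fun y _ => (h y).2)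
    refine le_trans (le_of_eq ?_) h1
    congr 1
    ext x'
    simp only [Set.mem_setOf_eq, out, inn]
    constructor
    · rintro ⟨y, h1, h2⟩
      exact ⟨y, h2, h1⟩
    · rintro ⟨y, h1, h2⟩
      exact ⟨y, h2, h1⟩
  have hkk : k + k * k ≤ 2 * k ^ 2 := by nlinarith
  have hA : ∀ x, (Pool.Agent.LPY.rho Q x).ncard ≤ 2 * k ^ 2 := by
    intro x
    have h1 : (Pool.Agent.LPY.rho Q x).ncard ≤ _ := Set.ncard_union_le _ _
    have h2 := (h x).1
    have h3 := hco x
    omega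
  have hB : ∀ v, {x | v ∈ Pool.Agent.LPY.rho Q x}.ncard ≤ 2 * k ^ 2 := by
    intro v
    have h1 : {x | v ∈ Pool.Agent.LPY.rho Q x} = inn Q v ∪ {x | ∃ y, (x, y) ∈ Q ∧ (v, y) ∈ Q} := by
      ext x
      simp only [Pool.Agent.LPY.rho, out, inn, Set.mem_union, Set.mem_setOf_eq]
      constructor
      · rintro (h1 | ⟨y, h1, h2⟩)
        · exact Or.inl h1
        · exact Or.inr ⟨y, h2, h1⟩
      · rintro (h1 | ⟨y, h1, h2⟩)
        · exact Or.inl h1
        · exact Or.inr ⟨y, h2, h1⟩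
    rw [h1]
    have h4 := Set.ncard_union_le (inn Q v) {x | ∃ y, (x, y) ∈ Q ∧ (v, y) ∈ Q}
    have h2 := (h v).2
    have h3 := hco v
    omega
  refine ⟨hA, hB, ?_⟩
  intro p
  have h1 := ncard_bU (β := V × Lab) (Pool.Agent.LPY.rho Q p.1)
    (fun v => {x | v ∈ Pool.Agent.LPY.rho Q x} ×ˢ (Set.univ : Set Lab))
    (2 * k ^ 2) (2 * k ^ 2 * 4096) (hA p.1) (fun v _ => by
      rw [Set.ncard_prod]
      have h5 : (Set.univ : Set Lab).ncard = 4096 := by
        rw [Set.ncard_univ, Nat.card_eq_fintype_card, ZMod.card]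
      rw [h5]
      exact Nat.mul_le_mul_right _ (hB v))
  refine le_trans (le_trans (le_of_eq ?_) h1) (le_of_eq (by ring))
  congr 1
  ext p'
  simp [gam]

end Pool.Agent.LPY.H14
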